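import Mathlib

/-!
# Hidden bits in point - half-plane graphs: the combinatorial part

A label of a point has to encode `R = M g^2` bits which are almost independent of all the labels of
half-planes which are shown to it before. The proof uses the halving algorithm and a union bound
over all patterns of labels.
-/

set_option autoImplicit false

open Finset

namespace Pool.Agent.Helper21.UD

/-! ### The halving algorithm -/

section Halving

variable {Lb Z : Type} [Fintype Lb] {R : ℕ}

/-- the labels which are consistent with the answers before position `j` -/
noncomputable def alive (A : Lb → Z → Bool) (z : Fin R → Z) (ans : Fin R → Bool) (j : ℕ) :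
    Finset Lb := by
  classical
  exact univ.filter fun l => ∀ r : Fin R, r.val < j → A l (z r) = ans r

/-- the prediction of the answer at `r`: the majority of the consistent labels -/
noncomputable def pred (A : Lb → Z → Bool) (z : Fin R → Z) (ans : Fin R → Bool) (r : Fin R) :
    Bool := by
  classical
  exact decide ((alive A z ans r.val).card <
    2 * ((alive A z ans r.val).filter fun l => A l (z r) = true).card)

lemma alive_congr (A : Lb → Z → Bool) {z z' : Fin R → Z} {ans ans' : Fin R → Bool} (j : ℕ)
    (hz : ∀ r : Fin R, r.val < j → z r = z' r) (ha : ∀ r : Fin R, r.val < j → ans r = ans' r) :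
    alive A z ans j = alive A z' ans' j := by
  classical
  unfold alive
  refine Finset.filter_congr fun l _ => ?_
  refine forall_congr' fun r => ?_
  constructor
  · intro h hr
    rw [← hz r hr, ← ha r hr]
    exact h hr
  · intro h hr
    rw [hz r hr, ha r hr]
    exact h hr

lemma pred_congr (A : Lb → Z → Bool) {z z' : Fin R → Z} {ans ans' : Fin R → Bool} (r : Fin R)
    (hz : ∀ r' : Fin R, r' ≤ r → z r' = z' r') (ha : ∀ r' : Fin R, r' < r → ans r' = ans' r') :
    pred A z ans r = pred A z' ans' r := by
  classical
  have h1 : alive A z ans r.val = alive A z' ans' r.val :=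
    alive_congr A r.val (fun r' h => hz r' (Fin.le_def.2 h.le)) (fun r' h => ha r' (Fin.lt_def.2 h))
  unfold pred
  rw [h1, hz r le_rfl]

/-- at most `log_2 |Lb|` of the predictions are wrong -/
theorem halving (A : Lb → Z → Bool) (z : Fin R → Z) (ans : Fin R → Bool) (l0 : Lb)
    (h0 : ∀ r, A l0 (z r) = ans r) :
    2 ^ (univ.filter fun r : Fin R => pred A z ans r ≠ ans r).card ≤ Fintype.card Lb := by
  classical
  have key : ∀ j : ℕ, j ≤ R →
      2 ^ (univ.filter fun r : Fin R => r.val < j ∧ pred A z ans r ≠ ans r).card *
        (alive A z ans j).card ≤ Fintype.card Lb := by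
    intro j
    induction j with
    | zero =>
      intro _
      simp only [Nat.not_lt_zero, false_and, Finset.filter_false, Finset.card_empty, pow_zero,
        one_mul]
      exact Finset.card_le_univ _
    | succ j ih =>
      intro hj
      have ih' := ih (by omega)
      set r0 : Fin R := ⟨j, by omega⟩ with hr0
      have hsub : alive A z ans (j + 1) =
          (alive A z ans j).filter fun l => A l (z r0) = ans r0 := by
        ext l
        unfold alive
        simp only [Finset.mem_filter, Finset.mem_univ, true_and]
        constructor
        · intro h
          exact ⟨fun r hr => h r (by omega), h r0 (by simp [hr0])⟩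
        · rintro ⟨h1, h2⟩ r hr
          rcases Nat.lt_succ_iff_lt_or_eq.1 hr with h3 | h3
          · exact h1 r h3
          · have : r = r0 := Fin.ext h3
            rw [this]; exact h2
      by_cases hm : pred A z ans r0 = ans r0
      · have hset : (univ.filter fun r : Fin R => r.val < j + 1 ∧ pred A z ans r ≠ ans r) =
            univ.filter fun r : Fin R => r.val < j ∧ pred A z ans r ≠ ans r := by
          ext r
          simp only [Finset.mem_filter, Finset.mem_univ, true_and]
          constructor
          · rintro ⟨h1, h2⟩
            refine ⟨?_, h2⟩
            rcases Nat.lt_succ_iff_lt_or_eq.1 h1 with h3 | h3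
            · exact h3
            · have : r = r0 := Fin.ext h3
              rw [this] at h2
              exact absurd hm h2
          · rintro ⟨h1, h2⟩
            exact ⟨by omega, h2⟩
        rw [hset]
        refine le_trans (Nat.mul_le_mul_left _ ?_) ih'
        rw [hsub]
        exact Finset.card_filter_le _ _
      · have hset : (univ.filter fun r : Fin R => r.val < j + 1 ∧ pred A z ans r ≠ ans r) =
            insert r0 (univ.filter fun r : Fin R => r.val < j ∧ pred A z ans r ≠ ans r) := by
          ext r
          simp only [Finset.mem_filter, Finset.mem_univ, true_and, Finset.mem_insert]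
          constructor
          · rintro ⟨h1, h2⟩
            rcases Nat.lt_succ_iff_lt_or_eq.1 h1 with h3 | h3
            · exact Or.inr ⟨h3, h2⟩
            · exact Or.inl (Fin.ext h3)
          · rintro (h1 | ⟨h1, h2⟩)
            · rw [h1]
              exact ⟨by simp [hr0], hm⟩
            · exact ⟨by omega, h2⟩
        have hnot : r0 ∉ (univ.filter fun r : Fin R => r.val < j ∧ pred A z ans r ≠ ans r) := by
          simp [hr0]
        rw [hset, Finset.card_insert_of_notMem hnot, pow_succ, mul_assoc]
        refine le_trans (Nat.mul_le_mul_left _ ?_) ih'
        -- the majority was wrong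
        rw [hsub]
        have hpart := Finset.card_filter_add_card_filter_not (s := alive A z ans j)
          (fun l => A l (z r0) = true)
        have hpred : pred A z ans r0 = decide ((alive A z ans j).card <
            2 * ((alive A z ans j).filter fun l => A l (z r0) = true).card) := by
          unfold pred
          rfl
        cases hans : ans r0 with
        | true =>
          rw [hans] at hm
          have h1 : ¬ ((alive A z ans j).card <
              2 * ((alive A z ans j).filter fun l => A l (z r0) = true).card) := by
            intro h2
            apply hm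
            rw [hpred]
            exact decide_eq_true h2
          omega
        | false =>
          rw [hans] at hm
          have h1 : ((alive A z ans j).card <
              2 * ((alive A z ans j).filter fun l => A l (z r0) = true).card) := by
            by_contra h2
            apply hm
            rw [hpred]
            exact decide_eq_false h2
          have h3 : ((alive A z ans j).filter fun l => A l (z r0) = false) =
              (alive A z ans j).filter fun l => ¬ (A l (z r0) = true) := by
            refine Finset.filter_congr fun l _ => ?_
            simp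
          rw [h3]
          omega
  have h1 := key R le_rfl
  have h2 : (univ.filter fun r : Fin R => r.val < R ∧ pred A z ans r ≠ ans r) =
      univ.filter fun r : Fin R => pred A z ans r ≠ ans r := by
    refine Finset.filter_congr fun r _ => ?_
    simp [r.isLt]
  rw [h2] at h1
  have h3 : 1 ≤ (alive A z ans R).card := by
    rw [Nat.one_le_iff_ne_zero, Finset.card_ne_zero]
    refine ⟨l0, ?_⟩
    unfold alive
    simp [h0]
  calc _ = 2 ^ (univ.filter fun r : Fin R => pred A z ans r ≠ ans r).card * 1 := (mul_one _).symm
    _ ≤ _ := le_trans (Nat.mul_le_mul_left _ h3) h1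

end Halving

/-! ### Few patterns cannot predict many random bits -/

section Patterns

variable {I Pat : Type} [Fintype I] [DecidableEq I] [Fintype Pat]

lemma sum_two_pow (f : I → Bool) :
    ∑ T : I → Bool, (2 : ℝ) ^ (univ.filter fun e => T e = f e).card = 3 ^ Fintype.card I := by
  have h1 : ∀ T : I → Bool, (2 : ℝ) ^ (univ.filter fun e => T e = f e).card =
      ∏ e, (if T e = f e then (2 : ℝ) else 1) := by
    intro T
    rw [Finset.prod_ite]
    simp
  have h2 : ∑ T : I → Bool, ∏ e, (if T e = f e then (2 : ℝ) else 1) =
      ∏ e, ∑ b : Bool, (if b = f e then (2 : ℝ) else 1) := by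
    rw [Finset.prod_univ_sum]
    rw [Fintype.piFinset_univ]
  have h3 : ∀ e, ∑ b : Bool, (if b = f e then (2 : ℝ) else 1) = 3 := by
    intro e
    rw [Fintype.sum_bool]
    cases f e <;> norm_num
  simp_rw [h1]
  rw [h2]
  simp_rw [h3]
  rw [Finset.prod_const, Finset.card_univ]

theorem sum_agree_le (φ : (I → Bool) → Pat) (F : Pat → I → Bool) :
    Real.log 2 * ∑ T : I → Bool, ((univ.filter fun e => T e = F (φ T) e).card : ℝ) ≤
      (Real.log (Fintype.card Pat) + Fintype.card I * Real.log (3 / 2)) *
        2 ^ Fintype.card I := by
  have hP : (0 : ℝ) < Fintype.card Pat := by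
    have : 0 < Fintype.card Pat := Fintype.card_pos_iff.2 ⟨φ fun _ => true⟩
    exact_mod_cast this
  set m : ℝ := Real.log (Fintype.card Pat) + Fintype.card I * Real.log (3 / 2) with hm
  have h1 : ∑ T : I → Bool, (2 : ℝ) ^ (univ.filter fun e => T e = F (φ T) e).card ≤
      Fintype.card Pat * 3 ^ Fintype.card I := by
    calc _ ≤ ∑ T : I → Bool, ∑ π : Pat, (2 : ℝ) ^ (univ.filter fun e => T e = F π e).card := by
          refine Finset.sum_le_sum fun T _ => ?_
          exact Finset.single_le_sum (f := fun π : Pat =>
            (2 : ℝ) ^ (univ.filter fun e => T e = F π e).card)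
            (fun _ _ => by positivity) (Finset.mem_univ (φ T))
      _ = ∑ π : Pat, ∑ T : I → Bool, (2 : ℝ) ^ (univ.filter fun e => T e = F π e).card :=
          Finset.sum_comm
      _ = _ := by
          simp_rw [sum_two_pow]
          rw [Finset.sum_const, Finset.card_univ, nsmul_eq_mul]
  have h2 : ∀ T : I → Bool,
      1 + (Real.log 2 * ((univ.filter fun e => T e = F (φ T) e).card : ℝ) - m) ≤
        (2 : ℝ) ^ (univ.filter fun e => T e = F (φ T) e).card * Real.exp (-m) := by
    intro T
    have h3 := Real.add_one_le_exp
      (Real.log 2 * ((univ.filter fun e => T e = F (φ T) e).card : ℝ) - m)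
    rw [sub_eq_add_neg, Real.exp_add, mul_comm (Real.log 2), ← Real.log_pow,
      Real.exp_log (by positivity), Real.log_pow] at h3
    linarith
  have h4 := Finset.sum_le_sum fun (T : I → Bool) (_ : T ∈ univ) => h2 T
  rw [← Finset.sum_mul] at h4
  have h5 : (∑ T : I → Bool, (2 : ℝ) ^ (univ.filter fun e => T e = F (φ T) e).card) *
      Real.exp (-m) ≤ 2 ^ Fintype.card I := by
    calc _ ≤ Fintype.card Pat * 3 ^ Fintype.card I * Real.exp (-m) :=
          mul_le_mul_of_nonneg_right h1 (Real.exp_pos _).le
      _ = 2 ^ Fintype.card I := by
          rw [hm, Real.exp_neg, Real.exp_add, Real.exp_log hP,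
            show (Fintype.card I : ℝ) * Real.log (3 / 2) = Real.log ((3 / 2) ^ Fintype.card I) by
              rw [Real.log_pow],
            Real.exp_log (by positivity), div_pow]
          field_simp
  have h6 := h4.trans h5
  rw [Finset.sum_add_distrib, Finset.sum_sub_distrib, ← Finset.mul_sum] at h6
  have h7 : (Fintype.card (I → Bool) : ℝ) = 2 ^ Fintype.card I := by
    rw [Fintype.card_fun, Fintype.card_bool]
    push_cast
    ring
  simp only [Finset.sum_const, Finset.card_univ, nsmul_eq_mul, h7, mul_one] at h6
  linarith [mul_comm m ((2 : ℝ) ^ Fintype.card I)]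

end Patterns

end Pool.Agent.Helper21.UD
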