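import Mathlib
import Pool.Agent.Helper21.UD.Core
import Pool.Agent.Helper87.UD.Defs

/-!
# The main inequality by halving (insurance version)
-/

set_option autoImplicit false
set_option linter.unusedSectionVars false

open Finset

namespace Pool.Agent.Helper21.UD

open Pool.Agent.Helper87.UD

variable {M g D B : ℕ}

/-! ### Positions -/

/-- level of a position -/
def lev (r : Fin (M * (g * g))) : Fin M := r.divNat
/-- row of a position -/
def row (r : Fin (M * (g * g))) : Fin g := r.modNat.divNat
/-- column of a position -/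
def col (r : Fin (M * (g * g))) : Fin g := r.modNat.modNat

lemma le_cases {r' r : Fin (M * (g * g))} (h : r' ≤ r) :
    lev r' < lev r ∨ (lev r' = lev r ∧
      (row r' < row r ∨ (row r' = row r ∧ col r' ≤ col r))) := by
  have h1 : r'.val ≤ r.val := h
  have a1 : (lev r').val = r'.val / (g * g) := rfl
  have a2 : (lev r).val = r.val / (g * g) := rfl
  have b1 : (row r').val = r'.val % (g * g) / g := rfl
  have b2 : (row r).val = r.val % (g * g) / g := rfl
  have c1 : (col r').val = r'.val % (g * g) % g := rfl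
  have c2 : (col r).val = r.val % (g * g) % g := rfl
  rcases lt_or_ge (lev r').val (lev r).val with h2 | h2
  · exact Or.inl h2
  · have h3 : (lev r').val = (lev r).val := le_antisymm (by
      rw [a1, a2]; exact Nat.div_le_div_right h1) h2
    refine Or.inr ⟨Fin.ext h3, ?_⟩
    have h4 : r'.val % (g * g) ≤ r.val % (g * g) := by
      have e1 := Nat.div_add_mod r'.val (g * g)
      have e2 := Nat.div_add_mod r.val (g * g)
      rw [a1, a2] at h3
      rw [h3] at e1
      omega
    rcases lt_or_ge (row r').val (row r).val with h5 | h5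
    · exact Or.inl h5
    · have h6 : (row r').val = (row r).val := le_antisymm (by
        rw [b1, b2]; exact Nat.div_le_div_right h4) h5
      refine Or.inr ⟨Fin.ext h6, ?_⟩
      have e1 := Nat.div_add_mod (r'.val % (g * g)) g
      have e2 := Nat.div_add_mod (r.val % (g * g)) g
      rw [b1, b2] at h6
      rw [h6] at e1
      have : (col r').val ≤ (col r).val := by
        rw [c1, c2]; omega
      exact this

lemma pos_ext {r' r : Fin (M * (g * g))} (h1 : lev r' = lev r) (h2 : row r' = row r)
    (h3 : col r' = col r) : r' = r := by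
  have a : r'.val / (g * g) = r.val / (g * g) := congrArg Fin.val h1
  have b : r'.val % (g * g) / g = r.val % (g * g) / g := congrArg Fin.val h2
  have c : r'.val % (g * g) % g = r.val % (g * g) % g := congrArg Fin.val h3
  have e1 := Nat.div_add_mod (r'.val % (g * g)) g
  have e2 := Nat.div_add_mod (r.val % (g * g)) g
  have e3 := Nat.div_add_mod r'.val (g * g)
  have e4 := Nat.div_add_mod r.val (g * g)
  rw [b, c, e2] at e1
  rw [a, ← e1, e4] at e3
  exact Fin.ext e3.symm

/-! ### The change of variables -/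

/-- a table replaced -/
def updS (S : Sec M g B) (i : Fin M) (u v : Fin g) (T : Fin B × Fin B → Bool) : Sec M g B :=
  Function.update S i (Function.update (S i) u (Function.update (S i u) v (Function.curry T)))

/-- a coordinate replaced -/
def updb (b : Fin M → Fin g → Fin B) (i : Fin M) (u : Fin g) (c : Fin B) : Fin M → Fin g → Fin B :=
  Function.update b i (Function.update (b i) u c)

lemma updb_same (b : Fin M → Fin g → Fin B) (i : Fin M) (u : Fin g) (c : Fin B) :
    updb b i u c i u = c := by simp [updb]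

lemma updb_ne (b : Fin M → Fin g → Fin B) (i : Fin M) (u : Fin g) (c : Fin B) {i' : Fin M}
    {u' : Fin g} (h : ¬ (i' = i ∧ u' = u)) : updb b i u c i' u' = b i' u' := by
  unfold updb
  by_cases hi : i' = i
  · subst hi
    rw [Function.update_self, Function.update_of_ne]
    exact fun h' => h ⟨rfl, h'⟩
  · rw [Function.update_of_ne hi]

lemma updb_updb (b : Fin M → Fin g → Fin B) (i : Fin M) (u : Fin g) (c : Fin B) :
    updb (updb b i u c) i u (b i u) = b := by
  funext i' u'
  by_cases h : i' = i ∧ u' = u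
  · rw [h.1, h.2, updb_same]
  · rw [updb_ne _ _ _ _ h, updb_ne _ _ _ _ h]

lemma updS_same (S : Sec M g B) (i : Fin M) (u v : Fin g) (T : Fin B × Fin B → Bool) :
    updS S i u v T i u v = Function.curry T := by simp [updS]

lemma updS_ne (S : Sec M g B) (i : Fin M) (u v : Fin g) (T : Fin B × Fin B → Bool) {i' : Fin M}
    {u' v' : Fin g} (h : ¬ (i' = i ∧ u' = u ∧ v' = v)) : updS S i u v T i' u' v' = S i' u' v' := by
  unfold updS
  by_cases hi : i' = i
  · subst hi
    rw [Function.update_self]
    by_cases hu : u' = u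
    · subst hu
      rw [Function.update_self, Function.update_of_ne]
      exact fun h' => h ⟨rfl, rfl, h'⟩
    · rw [Function.update_of_ne hu]
  · rw [Function.update_of_ne hi]

lemma updS_updS (S : Sec M g B) (i : Fin M) (u v : Fin g) (T : Fin B × Fin B → Bool) :
    updS (updS S i u v T) i u v (Function.uncurry (S i u v)) = S := by
  funext i' u' v'
  by_cases h : i' = i ∧ u' = u ∧ v' = v
  · rw [h.1, h.2.1, h.2.2, updS_same, Function.curry_uncurry]
  · rw [updS_ne _ _ _ _ _ h, updS_ne _ _ _ _ _ h]

/-- states with digits up to `D` -/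
abbrev Om (M g D B : ℕ) := (Fin g → Fin g → Fin (D + 1)) × (Fin M → Fin g → Fin B) ×
  (Fin M → Fin g → Fin B) × Sec M g B

/-- the two coordinates and the table of a position -/
abbrev En (B : ℕ) := (Fin B × Fin B) × (Fin B × Fin B → Bool)

/-- the digits of a point, at the places before `(u, v)` of the row `u` the perturbed ones -/
def xo (S : Sec M g B) (p : Pt M g D B) (i : Fin M) (u v : Fin g) : Fin g → Fin g → Fin (D + 1) :=
  fun u' v' => if u' = u ∧ v' < v then ss S p i u' v' else (p.1 u' v').castSucc

/-- the exchange -/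
def Phi (i : Fin M) (u v : Fin g) (a : (Pt M g D B × Sec M g B) × En B) : Om M g D B × En B :=
  ((xo a.1.2 a.1.1 i u v, updb a.1.1.2.1 i u a.2.1.1, updb a.1.1.2.2 i v a.2.1.2,
    updS a.1.2 i u v a.2.2),
   ((a.1.1.2.1 i u, a.1.1.2.2 i v), Function.uncurry (a.1.2 i u v)))

/-- truncation to `Fin D` -/
def cl [NeZero D] (n : ℕ) : Fin D := Fin.ofNat D n

lemma cl_val [NeZero D] (a : Fin D) : cl a.val = a := by
  unfold cl
  exact Fin.ofNat_val_eq_self a

/-- the point with the coordinates `c, c'` -/
def vp [NeZero D] (i : Fin M) (u v : Fin g) (w : Om M g D B) (c c' : Fin B) : Pt M g D B :=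
  (fun u' v' => if u' = u ∧ v' < v then
      cl ((w.1 u' v').val - (if w.2.2.2 i u' v' c (w.2.2.1 i v') then 1 else 0))
    else cl (w.1 u' v').val,
   updb w.2.1 i u c, updb w.2.2.1 i v c')

/-- the secret with the table `T` -/
def vs (i : Fin M) (u v : Fin g) (w : Om M g D B) (T : Fin B × Fin B → Bool) : Sec M g B :=
  updS w.2.2.2 i u v T

/-- the digits at level `i` as they are before the position `(u, v)` -/
def vd [NeZero D] (i : Fin M) (u v : Fin g) (w : Om M g D B) (c' : Fin B) :
    Fin g → Fin g → Fin (D + 1) :=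
  fun u' v' => if u' = u ∧ v' < v then w.1 u' v' else
    Fin.ofNat (D + 1) ((w.1 u' v').val +
      (if w.2.2.2 i u' v' (w.2.1 i u') (if v' = v then c' else w.2.2.1 i v') then 1 else 0))

/-- the name at level `i` -/
def vn [NeZero D] [NeZero B] (i : Fin M) (u v : Fin g) (w : Om M g D B) (c' : Fin B)
    (u' v' : Fin g) (θ : Fin D) : Nm M g D B :=
  (i, u', v', maskL i w.2.1, maskL i w.2.2.1, maskD u' v' (vd i u v w c'), θ)

section facts

variable [NeZero D] [NeZero B] (i : Fin M) (u v : Fin g) (p : Pt M g D B) (S : Sec M g B)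
  (e : En B)

lemma F2 : vs i u v (Phi i u v ((p, S), e)).1 (Phi i u v ((p, S), e)).2.2 = S := by
  unfold vs Phi
  exact updS_updS S i u v e.2

lemma F1 : vp i u v (Phi i u v ((p, S), e)).1 (p.2.1 i u) (p.2.2 i v) = p := by
  unfold vp Phi
  refine Prod.ext ?_ (Prod.ext ?_ ?_)
  · funext u' v'
    show (if u' = u ∧ v' < v then
      cl ((xo S p i u v u' v').val - (if updS S i u v e.2 i u' v' (p.2.1 i u)
        (updb p.2.2 i v e.1.2 i v') then 1 else 0))
      else cl (xo S p i u v u' v').val) = p.1 u' v'
    by_cases h : u' = u ∧ v' < v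
    · rw [if_pos h]
      have h1 : ¬ (i = i ∧ u' = u ∧ v' = v) := fun h' => (ne_of_lt h.2) h'.2.2
      have h2 : ¬ (i = i ∧ v' = v) := fun h' => (ne_of_lt h.2) h'.2
      rw [updS_ne _ _ _ _ _ h1, updb_ne _ _ _ _ h2]
      unfold xo
      rw [if_pos h]
      have h3 : (ss S p i u' v').val - (if S i u' v' (p.2.1 i u) (p.2.2 i v') then 1 else 0) =
          (p.1 u' v').val := by
        unfold ss tt
        rw [h.1]
        simp
      rw [h3, cl_val]
    · rw [if_neg h]
      unfold xo
      rw [if_neg h]
      exact cl_val _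
  · exact updb_updb p.2.1 i u e.1.1
  · exact updb_updb p.2.2 i v e.1.2

lemma F1' (c c' : Fin B) (w : Om M g D B) : (vp i u v w c c').1 = (vp i u v w c 0).1 := rfl

/-- names of lower levels -/
lemma F3 (T : Fin B × Fin B → Bool) (w : Om M g D B) (c c' : Fin B) (i' : Fin M) (hi : i' < i)
    (u' v' : Fin g) (θ : Fin D) :
    nm (vs i u v w T) (vp i u v w c c') i' u' v' θ =
      nm (vs i u v w T) (vp i u v w c 0) i' u' v' θ := by
  have hne : i' ≠ i := ne_of_lt hi
  have h1 : ∀ j : Fin M, j < i' → j ≠ i := fun j hj => ne_of_lt (hj.trans hi)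
  have h2 : maskL i' (vp i u v w c c').2.2 = maskL i' (vp i u v w c 0).2.2 := by
    funext j u''
    unfold maskL
    by_cases hj : j < i'
    · rw [if_pos hj, if_pos hj]
      show updb w.2.2.1 i v c' j u'' = updb w.2.2.1 i v 0 j u''
      rw [updb_ne _ _ _ _ (fun h => h1 j hj h.1), updb_ne _ _ _ _ (fun h => h1 j hj h.1)]
    · rw [if_neg hj, if_neg hj]
  have h3 : ss (vs i u v w T) (vp i u v w c c') i' = ss (vs i u v w T) (vp i u v w c 0) i' := by
    funext u'' v''
    apply Fin.ext
    have h4 : tt (vs i u v w T) (vp i u v w c c') i' u'' v'' =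
        tt (vs i u v w T) (vp i u v w c 0) i' u'' v'' := by
      show vs i u v w T i' u'' v'' (updb w.2.1 i u c i' u'') (updb w.2.2.1 i v c' i' v'') =
        vs i u v w T i' u'' v'' (updb w.2.1 i u c i' u'') (updb w.2.2.1 i v 0 i' v'')
      rw [updb_ne w.2.2.1 _ _ c' (fun h => hne h.1), updb_ne w.2.2.1 _ _ 0 (fun h => hne h.1)]
    show ((vp i u v w c c').1 u'' v'').val +
        (if tt (vs i u v w T) (vp i u v w c c') i' u'' v'' then 1 else 0) =
      ((vp i u v w c 0).1 u'' v'').val +
        (if tt (vs i u v w T) (vp i u v w c 0) i' u'' v'' then 1 else 0)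
    rw [h4]
    rfl
  unfold nm
  rw [h2, h3]
  rfl

/-- names of the same level -/
lemma F4 (u' v' : Fin g) (h : u' < u ∨ (u' = u ∧ v' ≤ v)) (θ : Fin D) :
    nm S p i u' v' θ = vn i u v (Phi i u v ((p, S), e)).1 (p.2.2 i v) u' v' θ := by
  unfold nm vn
  have h1 : maskL i (Phi i u v ((p, S), e)).1.2.1 = maskL i p.2.1 := by
    funext j u''
    unfold maskL
    by_cases hj : j < i
    · rw [if_pos hj, if_pos hj]
      exact updb_ne _ _ _ _ (fun h => (ne_of_lt hj) h.1)
    · rw [if_neg hj, if_neg hj]
  have h2 : maskL i (Phi i u v ((p, S), e)).1.2.2.1 = maskL i p.2.2 := by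
    funext j u''
    unfold maskL
    by_cases hj : j < i
    · rw [if_pos hj, if_pos hj]
      exact updb_ne _ _ _ _ (fun h => (ne_of_lt hj) h.1)
    · rw [if_neg hj, if_neg hj]
  have h3 : maskD u' v' (ss S p i) =
      maskD u' v' (vd i u v (Phi i u v ((p, S), e)).1 (p.2.2 i v)) := by
    funext a b
    unfold maskD
    by_cases hab : a < u' ∨ (a = u' ∧ b < v')
    · rw [if_pos hab, if_pos hab]
      have hlt : a < u ∨ (a = u ∧ b < v) := by
        rcases hab with h4 | ⟨h4, h5⟩
        · rcases h with h6 | ⟨h6, h7⟩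
          · exact Or.inl (h4.trans h6)
          · exact Or.inl (h6 ▸ h4)
        · rcases h with h6 | ⟨h6, h7⟩
          · exact Or.inl (h4 ▸ h6)
          · exact Or.inr ⟨h4.trans h6, lt_of_lt_of_le h5 h7⟩
      have hne : ¬ (i = i ∧ a = u ∧ b = v) := by
        rintro ⟨-, h4, h5⟩
        rcases hlt with h6 | ⟨-, h7⟩
        · exact (ne_of_lt h6) h4
        · exact (ne_of_lt h7) h5
      by_cases hrow : a = u ∧ b < v
      · show ss S p i a b = if a = u ∧ b < v then xo S p i u v a b else _
        rw [if_pos hrow]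
        unfold xo
        rw [if_pos hrow]
      · show ss S p i a b = if a = u ∧ b < v then xo S p i u v a b else
          Fin.ofNat (D + 1) ((xo S p i u v a b).val +
            (if updS S i u v e.2 i a b (updb p.2.1 i u e.1.1 i a)
              (if b = v then p.2.2 i v else updb p.2.2 i v e.1.2 i b) then 1 else 0))
        rw [if_neg hrow]
        have hau : a ≠ u := by
          intro h4
          rcases hlt with h6 | ⟨-, h7⟩
          · exact (ne_of_lt h6) h4
          · exact hrow ⟨h4, h7⟩
        have e1 : xo S p i u v a b = (p.1 a b).castSucc := by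
          unfold xo; rw [if_neg hrow]
        have e2 : (if b = v then p.2.2 i v else updb p.2.2 i v e.1.2 i b) = p.2.2 i b := by
          by_cases hb : b = v
          · rw [if_pos hb, hb]
          · rw [if_neg hb, updb_ne _ _ _ _ (fun h => hb h.2)]
        rw [e1, e2, updS_ne _ _ _ _ _ hne, updb_ne _ _ _ _ (fun h => hau h.2)]
        apply Fin.ext
        show (p.1 a b).val + (if tt S p i a b then 1 else 0) =
          ((p.1 a b).val + (if S i a b (p.2.1 i a) (p.2.2 i b) then 1 else 0)) % (D + 1)
        rw [Nat.mod_eq_of_lt]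
        · rfl
        · have := (p.1 a b).isLt
          split <;> omega
    · rw [if_neg hab, if_neg hab]
  rw [h1, h2, ← h3]

/-- the other answers do not depend on the table -/
lemma F5 (w : Om M g D B) (q : Pt M g D B) (T T' : Fin B × Fin B → Bool) (i' : Fin M)
    (u' v' : Fin g) (h : ¬ (i' = i ∧ u' = u ∧ v' = v)) :
    tt (vs i u v w T) q i' u' v' = tt (vs i u v w T') q i' u' v' := by
  unfold tt vs
  rw [updS_ne _ _ _ _ _ h, updS_ne _ _ _ _ _ h]

lemma Phi_injective : Function.Injective (Phi (M := M) (g := g) (D := D) (B := B) i u v) := by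
  rintro ⟨⟨p1, S1⟩, e1⟩ ⟨⟨p2, S2⟩, e2⟩ h
  have hp : p1 = p2 := by
    have a1 := F1 i u v p1 S1 e1
    have a2 := F1 i u v p2 S2 e2
    have b1 : p1.2.1 i u = (Phi i u v ((p1, S1), e1)).2.1.1 := rfl
    have b2 : p1.2.2 i v = (Phi i u v ((p1, S1), e1)).2.1.2 := rfl
    have b3 : p2.2.1 i u = (Phi i u v ((p2, S2), e2)).2.1.1 := rfl
    have b4 : p2.2.2 i v = (Phi i u v ((p2, S2), e2)).2.1.2 := rfl
    rw [b1, b2, h] at a1
    rw [b3, b4] at a2
    exact a1.symm.trans a2
  have hS : S1 = S2 := by
    have a1 := F2 i u v p1 S1 e1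
    have a2 := F2 i u v p2 S2 e2
    rw [h] at a1
    exact a1.symm.trans a2
  subst hp
  subst hS
  have he : e1 = e2 := by
    have c1 : updb p1.2.1 i u e1.1.1 = updb p1.2.1 i u e2.1.1 :=
      congrArg (fun a : Om M g D B × En B => a.1.2.1) h
    have c2 : updb p1.2.2 i v e1.1.2 = updb p1.2.2 i v e2.1.2 :=
      congrArg (fun a : Om M g D B × En B => a.1.2.2.1) h
    have c3 : updS S1 i u v e1.2 = updS S1 i u v e2.2 :=
      congrArg (fun a : Om M g D B × En B => a.1.2.2.2) h
    have d1 : e1.1.1 = e2.1.1 := by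
      have := congrFun (congrFun c1 i) u
      rwa [updb_same, updb_same] at this
    have d2 : e1.1.2 = e2.1.2 := by
      have := congrFun (congrFun c2 i) v
      rwa [updb_same, updb_same] at this
    have d3 : e1.2 = e2.2 := by
      have := congrFun (congrFun (congrFun c3 i) u) v
      rw [updS_same, updS_same] at this
      have h5 := congrArg Function.uncurry this
      rwa [Function.uncurry_curry, Function.uncurry_curry] at h5
    exact Prod.ext (Prod.ext d1 d2) d3
  rw [he]

end facts

end Pool.Agent.Helper21.UD
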