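import Mathlib
import Pool.Agent.Helper21.UD.Core2

/-!
# The main inequality by halving: counting and final statement
-/

set_option autoImplicit false
set_option linter.unusedSectionVars false

open Finset

namespace Pool.Agent.Helper21.UD

open Pool.Agent.Helper87.UD

variable {M g D B : ℕ} [NeZero D] [NeZero B] {L : Type} [Fintype L]

instance instPt (M g D B : ℕ) : Fintype (Pt M g D B) := inferInstance
instance instSec (M g B : ℕ) : Fintype (Sec M g B) := inferInstance
instance instEn (B : ℕ) : Fintype (En B) := inferInstance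
instance instSt (M g D B : ℕ) : Fintype (Pt M g D B × Sec M g B) :=
  @instFintypeProd _ _ (instPt M g D B) (instSec M g B)
instance instBb (M g B : ℕ) : Fintype ((Fin M → Fin g → Fin B) × (Fin M → Fin g → Fin B) ×
    Sec M g B) :=
  @instFintypeProd _ _ _ (@instFintypeProd _ _ _ (instSec M g B))
instance instOm (M g D B : ℕ) : Fintype (Om M g D B) :=
  @instFintypeProd _ _ _ (instBb M g B)
instance instOE (M g D B : ℕ) : Fintype (Om M g D B × En B) :=
  @instFintypeProd _ _ (instOm M g D B) (instEn B)

/-- the patterns of labels seen by a position -/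
abbrev Gr (M g D : ℕ) (L : Type) := Fin (M * (g * g)) × Fin D → L

/-- labels seen by the first coordinate -/
def al (lh : Sec M g B → Nm M g D B → L) (r : Fin (M * (g * g))) (w : Om M g D B)
    (T : Fin B × Fin B → Bool) (c : Fin B) : Gr M g D L := fun q =>
  lh (vs (lev r) (row r) (col r) w T)
    (nm (vs (lev r) (row r) (col r) w T) (vp (lev r) (row r) (col r) w c 0)
      (lev q.1) (row q.1) (col q.1) q.2)

/-- labels seen by the second coordinate -/
def be (lh : Sec M g B → Nm M g D B → L) (r : Fin (M * (g * g))) (w : Om M g D B)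
    (T : Fin B × Fin B → Bool) (c' : Fin B) : Gr M g D L := fun q =>
  lh (vs (lev r) (row r) (col r) w T)
    (vn (lev r) (row r) (col r) w c' (row q.1) (col q.1) q.2)

/-- the prediction as a function of the patterns -/
noncomputable def Gp (A : L → L → Bool) (r : Fin (M * (g * g))) (w : Om M g D B)
    (π : (Fin B → Gr M g D L) × (Fin B → Gr M g D L)) (cc : Fin B × Fin B) : Bool :=
  pred A (fun r' =>
      if lev r' < lev r then
        π.1 cc.1 (r', (vp (lev r) (row r) (col r) w cc.1 cc.2).1 (row r') (col r'))
      else π.2 cc.2 (r', (vp (lev r) (row r) (col r) w cc.1 cc.2).1 (row r') (col r')))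
    (fun r' => tt (vs (lev r) (row r) (col r) w fun _ => true)
      (vp (lev r) (row r) (col r) w cc.1 cc.2) (lev r') (row r') (col r')) r

/-- the labels of the half-planes shown to a point -/
def zz (lh : Sec M g B → Nm M g D B → L) (a : Pt M g D B × Sec M g B) (r : Fin (M * (g * g))) : L :=
  lh a.2 (nm a.2 a.1 (lev r) (row r) (col r) (a.1.1 (row r) (col r)))

/-- the answers -/
def an (a : Pt M g D B × Sec M g B) (r : Fin (M * (g * g))) : Bool :=
  tt a.2 a.1 (lev r) (row r) (col r)

/-- the prediction is the prediction from the patterns -/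
lemma pred_eq (A : L → L → Bool) (lh : Sec M g B → Nm M g D B → L) (r : Fin (M * (g * g)))
    (a : Pt M g D B × Sec M g B) (e : En B) :
    pred A (zz lh a) (an a) r =
      Gp A r (Phi (lev r) (row r) (col r) (a, e)).1
        (al lh r (Phi (lev r) (row r) (col r) (a, e)).1 (Phi (lev r) (row r) (col r) (a, e)).2.2,
         be lh r (Phi (lev r) (row r) (col r) (a, e)).1 (Phi (lev r) (row r) (col r) (a, e)).2.2)
        (Phi (lev r) (row r) (col r) (a, e)).2.1 := by
  obtain ⟨p, S⟩ := a
  have hvp : vp (lev r) (row r) (col r) (Phi (lev r) (row r) (col r) ((p, S), e)).1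
      (Phi (lev r) (row r) (col r) ((p, S), e)).2.1.1
      (Phi (lev r) (row r) (col r) ((p, S), e)).2.1.2 = p := F1 _ _ _ p S e
  have hvs : vs (lev r) (row r) (col r) (Phi (lev r) (row r) (col r) ((p, S), e)).1
      (Phi (lev r) (row r) (col r) ((p, S), e)).2.2 = S := F2 _ _ _ p S e
  unfold Gp
  rw [hvp]
  refine pred_congr A r ?_ ?_
  · intro r' hr'
    by_cases hl : lev r' < lev r
    · rw [if_pos hl]
      show zz lh (p, S) r' = al lh r _ _ _ _
      unfold zz al
      have h3 := F3 (lev r) (row r) (col r) (Phi (lev r) (row r) (col r) ((p, S), e)).2.2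
        (Phi (lev r) (row r) (col r) ((p, S), e)).1
        (Phi (lev r) (row r) (col r) ((p, S), e)).2.1.1
        (Phi (lev r) (row r) (col r) ((p, S), e)).2.1.2 (lev r') hl (row r') (col r')
        (p.1 (row r') (col r'))
      rw [hvp, hvs] at h3
      rw [hvs, h3]
    · rw [if_neg hl]
      show zz lh (p, S) r' = be lh r _ _ _ _
      unfold zz be
      have h1 : lev r' = lev r ∧ (row r' < row r ∨ (row r' = row r ∧ col r' ≤ col r)) := by
        rcases le_cases hr' with h | h
        · exact absurd h hl
        · exact h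
      have h4 := F4 (lev r) (row r) (col r) p S e (row r') (col r') h1.2 (p.1 (row r') (col r'))
      rw [hvs]
      show lh S (nm S p (lev r') (row r') (col r') (p.1 (row r') (col r'))) = _
      rw [h1.1, h4]
      rfl
  · intro r' hr'
    have hne : ¬ (lev r' = lev r ∧ row r' = row r ∧ col r' = col r) := by
      rintro ⟨h1, h2, h3⟩
      exact (ne_of_lt hr') (pos_ext h1 h2 h3)
    have h5 := F5 (lev r) (row r) (col r) (Phi (lev r) (row r) (col r) ((p, S), e)).1 p
      (fun _ => true) (Phi (lev r) (row r) (col r) ((p, S), e)).2.2 (lev r') (row r') (col r') hne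
    rw [h5, hvs]
    rfl

lemma log_pat (M g D B : ℕ) (L : Type) [Fintype L] :
    Real.log (Fintype.card ((Fin B → Gr M g D L) × (Fin B → Gr M g D L))) =
      2 * B * (M * (g * g)) * D * Real.log (Fintype.card L) := by
  rw [Fintype.card_prod, Fintype.card_fun, Fintype.card_fun, Fintype.card_prod, Fintype.card_fin,
    Fintype.card_fin, Fintype.card_fin, ← pow_mul, ← pow_add]
  push_cast
  rw [Real.log_pow]
  push_cast
  ring

/-- at each position, few correct predictions -/
theorem correct_le (A : L → L → Bool) (lh : Sec M g B → Nm M g D B → L) (r : Fin (M * (g * g))) :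
    Real.log 2 * (Fintype.card (En B)) *
        ((univ.filter fun a : Pt M g D B × Sec M g B => pred A (zz lh a) (an a) r = an a r).card : ℝ) ≤
      Fintype.card (Om M g D B) *
        ((2 * B * (M * (g * g)) * D * Real.log (Fintype.card L) +
          ((B * B : ℕ) : ℝ) * Real.log (3 / 2)) * 2 ^ (B * B)) := by
  classical
  -- agreement of a state
  obtain ⟨good, hgood⟩ : ∃ good : Om M g D B × En B → Prop, good = fun b =>
    b.2.2 b.2.1 = Gp A r b.1 (al lh r b.1 b.2.2, be lh r b.1 b.2.2) b.2.1 := ⟨_, rfl⟩
  have h1 : ((univ.filter fun a : Pt M g D B × Sec M g B =>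
      pred A (zz lh a) (an a) r = an a r) ×ˢ (univ : Finset (En B))).card ≤
      (univ.filter fun b : Om M g D B × En B => good b).card := by
    refine Finset.card_le_card_of_injOn (Phi (lev r) (row r) (col r)) ?_
      ((Phi_injective (lev r) (row r) (col r)).injOn)
    rintro ⟨a, e⟩ ha
    have ha' : pred A (zz lh a) (an a) r = an a r := by
      have := (Finset.mem_product.1 (Finset.mem_coe.1 ha)).1
      exact (Finset.mem_filter.1 this).2
    have hp := pred_eq A lh r a e
    rw [hp] at ha'
    simp only [Finset.coe_filter, Finset.mem_univ, true_and, Set.mem_ofPred_eq]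
    rw [hgood]
    exact ha'.symm
  have h2 : ((univ.filter fun b : Om M g D B × En B => good b).card : ℝ) =
      ∑ w : Om M g D B, ∑ T : Fin B × Fin B → Bool,
        ((univ.filter fun cc : Fin B × Fin B => T cc = Gp A r w (al lh r w T, be lh r w T) cc).card
          : ℝ) := by
    rw [Finset.card_filter]
    push_cast
    rw [Fintype.sum_prod_type]
    refine Finset.sum_congr rfl fun w _ => ?_
    rw [Fintype.sum_prod_type, Finset.sum_comm]
    refine Finset.sum_congr rfl fun T _ => ?_
    rw [Finset.card_filter]
    push_cast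
    refine Finset.sum_congr rfl fun cc _ => ?_
    exact if_congr (by rw [hgood]) rfl rfl
  have h3 : ∀ w : Om M g D B, Real.log 2 * ∑ T : Fin B × Fin B → Bool,
        ((univ.filter fun cc : Fin B × Fin B => T cc = Gp A r w (al lh r w T, be lh r w T) cc).card
          : ℝ) ≤ (2 * B * (M * (g * g)) * D * Real.log (Fintype.card L) +
          ((B * B : ℕ) : ℝ) * Real.log (3 / 2)) * 2 ^ (B * B) := by
    intro w
    have h4 := sum_agree_le (I := Fin B × Fin B) (fun T => (al lh r w T, be lh r w T))
      (fun π cc => Gp A r w π cc)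
    rw [log_pat, Fintype.card_prod, Fintype.card_fin] at h4
    exact h4
  calc Real.log 2 * (Fintype.card (En B)) *
        ((univ.filter fun a : Pt M g D B × Sec M g B => pred A (zz lh a) (an a) r = an a r).card : ℝ)
      = Real.log 2 * (((univ.filter fun a : Pt M g D B × Sec M g B =>
      pred A (zz lh a) (an a) r = an a r) ×ˢ (univ : Finset (En B))).card : ℝ) := by
        rw [Finset.card_product, Finset.card_univ]
        push_cast
        ring
    _ ≤ Real.log 2 * ((univ.filter fun b : Om M g D B × En B => good b).card : ℝ) := by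
        refine mul_le_mul_of_nonneg_left ?_ (Real.log_nonneg (by norm_num))
        exact_mod_cast h1
    _ = ∑ w : Om M g D B, Real.log 2 * ∑ T : Fin B × Fin B → Bool,
        ((univ.filter fun cc : Fin B × Fin B => T cc = Gp A r w (al lh r w T, be lh r w T) cc).card
          : ℝ) := by
        rw [h2, Finset.mul_sum]
    _ ≤ ∑ _w : Om M g D B, ((2 * B * (M * (g * g)) * D * Real.log (Fintype.card L) +
          ((B * B : ℕ) : ℝ) * Real.log (3 / 2)) * 2 ^ (B * B)) :=
        Finset.sum_le_sum fun w _ => h3 w
    _ = _ := by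
        rw [Finset.sum_const, Finset.card_univ, nsmul_eq_mul]

/-- the loss from the digits at the border -/
lemma card_Om (M g D B : ℕ) (hD : 2 * g ^ 2 ≤ D) (hD0 : 0 < D) :
    (Fintype.card (Om M g D B) : ℝ) ≤ 1649 / 1000 * Fintype.card (Pt M g D B × Sec M g B) := by
  have h1 : (Fintype.card (Om M g D B) : ℝ) =
      (((D : ℝ) + 1) / D) ^ (g * g) * Fintype.card (Pt M g D B × Sec M g B) := by
    have e1 : Fintype.card (Om M g D B) = (D + 1) ^ (g * g) * Fintype.card
        ((Fin M → Fin g → Fin B) × (Fin M → Fin g → Fin B) × Sec M g B) := by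
      rw [Fintype.card_prod]
      congr 1
      simp only [Fintype.card_fun, Fintype.card_fin]
      rw [← pow_mul]
    have e2 : Fintype.card (Pt M g D B × Sec M g B) = D ^ (g * g) * Fintype.card
        ((Fin M → Fin g → Fin B) × (Fin M → Fin g → Fin B) × Sec M g B) := by
      rw [Fintype.card_prod, Fintype.card_prod, Fintype.card_prod, Fintype.card_prod,
        Fintype.card_prod]
      simp only [Fintype.card_fun, Fintype.card_fin]
      rw [← pow_mul]
      ring
    rw [e1, e2]
    push_cast
    have hD1 : (D : ℝ) ≠ 0 := by positivity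
    rw [div_pow]
    field_simp
  rw [h1]
  refine mul_le_mul_of_nonneg_right ?_ (by positivity)
  have hD1 : (0 : ℝ) < D := by exact_mod_cast hD0
  have hD2 : (2 : ℝ) * (g * g) ≤ D := by
    have : 2 * (g * g) ≤ D := by rw [← pow_two]; exact hD
    exact_mod_cast this
  have h2 : ((D : ℝ) + 1) / D ≤ Real.exp (1 / D) := by
    have := Real.add_one_le_exp (1 / (D : ℝ))
    have h3 : ((D : ℝ) + 1) / D = 1 / D + 1 := by
      rw [add_div, div_self hD1.ne']; ring
    linarith
  have h4 : (((D : ℝ) + 1) / D) ^ (g * g) ≤ Real.exp (1 / 2) := by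
    calc (((D : ℝ) + 1) / D) ^ (g * g) ≤ (Real.exp (1 / D)) ^ (g * g) := by
          exact pow_le_pow_left₀ (by positivity) h2 _
      _ = Real.exp ((g * g : ℕ) * (1 / D)) := (Real.exp_nat_mul _ _).symm
      _ ≤ Real.exp (1 / 2) := by
          apply Real.exp_le_exp.2
          push_cast
          rw [mul_one_div, div_le_div_iff₀ hD1 (by norm_num)]
          linarith
  refine h4.trans ?_
  have h5 : Real.exp (1 / 2 : ℝ) ≤ 1649 / 1000 := by
    have h6 := Real.exp_bound' (x := (1 / 2 : ℝ)) (by norm_num) (by norm_num) (n := 6)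
      (by norm_num)
    refine h6.trans ?_
    simp only [Finset.sum_range_succ, Finset.sum_range_zero, Nat.factorial]
    norm_num
  exact h5

/-- **The main inequality.** -/
theorem core [NeZero M] [NeZero g] (lp : Sec M g B → Pt M g D B → L)
    (lh : Sec M g B → Nm M g D B → L) (A : L → L → Bool)
    (hA : ∀ S p i u v, A (lp S p) (lh S (nm S p i u v (p.1 u v))) = tt S p i u v)
    (hD : 2 * g ^ 2 ≤ D)
    (hB : 1000 * M * g ^ 2 * (D + 2) * Real.log (Fintype.card L) ≤ B * Real.log 2) :
    M * g ^ 2 * Real.log 2 * (3 / 100) ≤ Real.log (Fintype.card L) := by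
  classical
  have hD0 : 0 < D := Nat.pos_of_ne_zero (NeZero.ne D)
  have hB0 : 0 < B := Nat.pos_of_ne_zero (NeZero.ne B)
  have hBr : (0 : ℝ) < B := by exact_mod_cast hB0
  have hlog2 : 0 < Real.log 2 := Real.log_pos (by norm_num)
  have hlog32 : Real.log (3 / 2) ≤ 24 / 41 * Real.log 2 := by
    have h1 : Real.log ((3 / 2) ^ 41) ≤ Real.log (2 ^ 24) :=
      Real.log_le_log (by norm_num) (by norm_num)
    rw [Real.log_pow, Real.log_pow] at h1
    push_cast at h1
    linarith
  set N : ℝ := (Fintype.card (Pt M g D B × Sec M g B) : ℝ) with hN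
  have hNpos : 0 < N := by
    rw [hN]
    have : 0 < Fintype.card (Pt M g D B × Sec M g B) :=
      Fintype.card_pos_iff.2 ⟨((fun _ _ => 0, fun _ _ => 0, fun _ _ => 0),
        fun _ _ _ _ _ => true)⟩
    exact_mod_cast this
  have hlogL : 0 ≤ Real.log (Fintype.card L) := Real.log_natCast_nonneg _
  set R : ℕ := M * (g * g) with hR
  -- correct predictions at one position
  have h1 : ∀ r : Fin R, ((univ.filter fun a : Pt M g D B × Sec M g B =>
      pred A (zz lh a) (an a) r = an a r).card : ℝ) ≤ 97 / 100 * N := by
    intro r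
    have h2 := correct_le A lh r
    have h3 := card_Om M g D B hD hD0
    have hE : (Fintype.card (En B) : ℝ) = (B * B : ℕ) * 2 ^ (B * B) := by
      rw [Fintype.card_prod, Fintype.card_fun, Fintype.card_prod, Fintype.card_fin,
        Fintype.card_bool]
      push_cast
      ring
    have hX : (2 * B * (M * (g * g)) * D * Real.log (Fintype.card L) +
          ((B * B : ℕ) : ℝ) * Real.log (3 / 2)) ≤ (B * B : ℕ) * (Real.log 2 * (588 / 1000)) := by
      have e1 : (2 * B * (M * (g * g)) * D * Real.log (Fintype.card L) : ℝ) ≤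
          (B * B : ℕ) * (Real.log 2 * (2 / 1000)) := by
        have e2 : (1000 * (M * (g * g)) * D * Real.log (Fintype.card L) : ℝ) ≤
            1000 * M * g ^ 2 * (D + 2) * Real.log (Fintype.card L) := by
          have e3 : (0 : ℝ) ≤ (M * (g * g)) * D * Real.log (Fintype.card L) := by positivity
          have e4 : (0 : ℝ) ≤ (M * (g * g)) * Real.log (Fintype.card L) := by positivity
          nlinarith
        have e5 := e2.trans hB
        have e6 := mul_le_mul_of_nonneg_left e5 (by positivity : (0 : ℝ) ≤ B / 500)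
        push_cast
        linarith
      have e7 : ((B * B : ℕ) : ℝ) * Real.log (3 / 2) ≤ (B * B : ℕ) * (24 / 41 * Real.log 2) :=
        mul_le_mul_of_nonneg_left hlog32 (by positivity)
      have e8 : (0 : ℝ) ≤ ((B * B : ℕ) : ℝ) * Real.log 2 := by positivity
      linarith
    have h4 : (Fintype.card (Om M g D B) : ℝ) *
        ((2 * B * (M * (g * g)) * D * Real.log (Fintype.card L) +
          ((B * B : ℕ) : ℝ) * Real.log (3 / 2)) * 2 ^ (B * B)) ≤
        (1649 / 1000 * N) * (((B * B : ℕ) * (Real.log 2 * (588 / 1000))) * 2 ^ (B * B)) := by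
      refine mul_le_mul h3 (mul_le_mul_of_nonneg_right hX (by positivity)) ?_ (by positivity)
      have : 0 ≤ Real.log (3 / 2) := Real.log_nonneg (by norm_num)
      positivity
    have h5 := h2.trans h4
    rw [hE] at h5
    have hK : (0 : ℝ) < Real.log 2 * ((B * B : ℕ) * 2 ^ (B * B)) := by
      have : (0 : ℝ) < ((B * B : ℕ) : ℝ) := by
        exact_mod_cast Nat.mul_pos hB0 hB0
      positivity
    have h6 : (Real.log 2 * ((B * B : ℕ) * 2 ^ (B * B))) *
        ((univ.filter fun a : Pt M g D B × Sec M g B =>
          pred A (zz lh a) (an a) r = an a r).card : ℝ) ≤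
        (Real.log 2 * ((B * B : ℕ) * 2 ^ (B * B))) * (1649 / 1000 * (588 / 1000) * N) := by
      calc _ ≤ _ := h5
        _ = _ := by ring
    have h7 := le_of_mul_le_mul_left h6 hK
    linarith
  -- wrong predictions of one state
  have h8 : ∀ a : Pt M g D B × Sec M g B,
      ((univ.filter fun r : Fin R => pred A (zz lh a) (an a) r ≠ an a r).card : ℝ) * Real.log 2 ≤
        Real.log (Fintype.card L) := by
    intro a
    have h9 := halving A (zz lh a) (an a) (lp a.2 a.1) (fun r => hA a.2 a.1 _ _ _)
    have h10 : Real.log ((2 : ℝ) ^ (univ.filter fun r : Fin R =>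
        pred A (zz lh a) (an a) r ≠ an a r).card) ≤ Real.log (Fintype.card L) := by
      refine Real.log_le_log (by positivity) ?_
      exact_mod_cast h9
    rwa [Real.log_pow] at h10
  -- double counting
  have h11 : ∑ a : Pt M g D B × Sec M g B,
      ((univ.filter fun r : Fin R => pred A (zz lh a) (an a) r ≠ an a r).card : ℝ) =
      ∑ r : Fin R, (N - ((univ.filter fun a : Pt M g D B × Sec M g B =>
        pred A (zz lh a) (an a) r = an a r).card : ℝ)) := by
    have e1 : ∀ a : Pt M g D B × Sec M g B,
        ((univ.filter fun r : Fin R => pred A (zz lh a) (an a) r ≠ an a r).card : ℝ) =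
        ∑ r : Fin R, (if pred A (zz lh a) (an a) r ≠ an a r then (1 : ℝ) else 0) := by
      intro a
      rw [Finset.card_filter]
      push_cast
      rfl
    simp_rw [e1]
    rw [Finset.sum_comm]
    refine Finset.sum_congr rfl fun r _ => ?_
    have e2 := Finset.card_filter_add_card_filter_not
      (s := (univ : Finset (Pt M g D B × Sec M g B)))
      (fun a => pred A (zz lh a) (an a) r = an a r)
    rw [Finset.card_univ] at e2
    have e3 : (((univ.filter fun a : Pt M g D B × Sec M g B =>
        pred A (zz lh a) (an a) r = an a r).card : ℝ)) +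
        ((univ.filter fun a : Pt M g D B × Sec M g B =>
        ¬ (pred A (zz lh a) (an a) r = an a r)).card : ℝ) = N := by
      rw [hN]
      exact_mod_cast e2
    rw [← e3, Finset.card_filter (fun a => ¬ (pred A (zz lh a) (an a) r = an a r))]
    push_cast
    ring
  have h12 : (∑ a : Pt M g D B × Sec M g B,
      ((univ.filter fun r : Fin R => pred A (zz lh a) (an a) r ≠ an a r).card : ℝ)) *
        Real.log 2 ≤ N * Real.log (Fintype.card L) := by
    rw [Finset.sum_mul]
    calc _ ≤ ∑ _a : Pt M g D B × Sec M g B, Real.log (Fintype.card L) :=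
          Finset.sum_le_sum fun a _ => h8 a
      _ = _ := by rw [Finset.sum_const, Finset.card_univ, nsmul_eq_mul]
  have h13 : (R : ℝ) * (3 / 100 * N) ≤ ∑ a : Pt M g D B × Sec M g B,
      ((univ.filter fun r : Fin R => pred A (zz lh a) (an a) r ≠ an a r).card : ℝ) := by
    rw [h11]
    calc (R : ℝ) * (3 / 100 * N) = ∑ _r : Fin R, (3 / 100 * N) := by
          rw [Finset.sum_const, Finset.card_univ, Fintype.card_fin, nsmul_eq_mul]
      _ ≤ _ := Finset.sum_le_sum fun r _ => by linarith [h1 r]
  have h14 : ((R : ℝ) * (3 / 100 * N)) * Real.log 2 ≤ N * Real.log (Fintype.card L) :=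
    (mul_le_mul_of_nonneg_right h13 hlog2.le).trans h12
  have h15 : N * ((R : ℝ) * Real.log 2 * (3 / 100)) ≤ N * Real.log (Fintype.card L) := by
    calc _ = ((R : ℝ) * (3 / 100 * N)) * Real.log 2 := by ring
      _ ≤ _ := h14
  have h16 := le_of_mul_le_mul_left h15 hNpos
  have h17 : (R : ℝ) = M * g ^ 2 := by
    rw [hR]; push_cast; ring
  rw [h17] at h16
  exact h16

end Pool.Agent.Helper21.UD
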