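import Mathlib
import Pool.Agent.Helper21.UD.Core3
import Pool.Agent.Helper72.UD.Fin
import Pool.Agent.Helper75.UD.Num

/-! Final assembly with the halving version of the main inequality. -/

set_option autoImplicit false

namespace Pool.Agent.Helper21.UD

open Pool.Agent.Helper87.UD Pool.Agent.Helper72.ELR Pool.Agent.Helper72.UD

/-- no labelling scheme for the tables -/
theorem not_scheme : ¬ Scheme := by
  rintro ⟨A, C, hA⟩
  obtain ⟨M, g, D, B, hM, hg, hD, hB, h1, h2, h3⟩ := Pool.Agent.Helper75.UD.num C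
  have : NeZero M := ⟨hM.ne'⟩
  have : NeZero g := ⟨hg.ne'⟩
  have : NeZero D := ⟨hD.ne'⟩
  have : NeZero B := ⟨hB.ne'⟩
  obtain ⟨lp, lh, hlp, hlh, hA'⟩ := hA M g D B
  set N := (Fintype.card (Pt M g D B) + Fintype.card (Nm M g D B) + 1) ^ C with hN
  have hc : Fintype.card (Fin (N + 1)) = N + 1 := Fintype.card_fin _
  have h4 := core (L := Fin (N + 1)) (fun S p => ⟨lp S p, Nat.lt_succ_of_le (hlp S p)⟩)
    (fun S η => ⟨lh S η, Nat.lt_succ_of_le (hlh S η)⟩) (fun a b => A a.val b.val)
    (fun S p i u v => hA' S p i u v) h1 (by rw [hc]; exact h2)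
  rw [hc] at h4
  have hl2 : 0 < Real.log 2 := Real.log_pos (by norm_num)
  have h5 : (0 : ℝ) ≤ (M : ℝ) * (g : ℝ) ^ 2 * Real.log 2 := by positivity
  linarith

/-- no efficient local representation of the unit ball graphs in any dimension `≥ 2` -/
theorem final : ∀ d, 2 ≤ d → ¬ HasELR (UnitBall d) :=
  fun _ hd h => not_scheme (scheme_of_unitBall hd h)

end Pool.Agent.Helper21.UD
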